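import Pool.Agent.H638.IB.Final

/-! Iterated intersection bodies of origin-symmetric convex bodies in dimension at least three
converge to the Euclidean ball in the Banach-Mazur distance, uniformly in the body. -/

set_option autoImplicit false

open MeasureTheory Set Filter Topology Metric
open scoped Pointwise

namespace Pool.Agent.Results.MP_5ac201_gt.IteratesConverge

/-- Euclidean `n`-space. -/
abbrev E (n : ℕ) : Type := EuclideanSpace ℝ (Fin n)

/-- The closed unit ball. -/
def unitBall (n : ℕ) : Set (E n) := closedBall 0 1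

/-- Origin-symmetric convex bodies: compact, convex, with nonempty interior and `K = -K`. -/
structure IsSymConvexBody {n : ℕ} (K : Set (E n)) : Prop where
  isCompact : IsCompact K
  convex : Convex ℝ K
  interior_nonempty : (interior K).Nonempty
  neg_mem : ∀ x ∈ K, -x ∈ K

/-- The hyperplane through the origin orthogonal to `u`. -/
noncomputable abbrev hyp {n : ℕ} (u : E n) : Submodule ℝ (E n) := (ℝ ∙ u)ᗮ

/-- Lebesgue measure of the hyperplane `hyp u`. -/
noncomputable abbrev hypVol {n : ℕ} (u : E n) : Measure (hyp u) := volume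

/-- The `(n-1)`-dimensional volume of the section of `K` by the hyperplane through the origin
orthogonal to `u`. -/
noncomputable def secVol {n : ℕ} (K : Set (E n)) (u : E n) : ℝ :=
  (hypVol u {y : hyp u | (y : E n) ∈ K}).toReal

/-- The intersection body: the star body whose radial function is `secVol K` on unit vectors. -/
def interBody {n : ℕ} (K : Set (E n)) : Set (E n) :=
  {x | ∃ u : E n, ‖u‖ = 1 ∧ ∃ r : ℝ, 0 ≤ r ∧ r ≤ secVol K u ∧ x = r • u}

/-- The image of a set under an invertible linear map. -/
def linImage {n : ℕ} (T : E n ≃ₗ[ℝ] E n) (A : Set (E n)) : Set (E n) := T '' A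

/-- The Banach-Mazur distance: the infimum of all `l ≥ 1` with `B ⊆ T A ⊆ l B` for some invertible
linear map `T`. -/
noncomputable def banachMazur {n : ℕ} (A B : Set (E n)) : ℝ :=
  sInf {l : ℝ | 1 ≤ l ∧ ∃ T : E n ≃ₗ[ℝ] E n, B ⊆ linImage T A ∧ linImage T A ⊆ l • B}

theorem body_iff {n : ℕ} (K : Set (E n)) : IsSymConvexBody K ↔ Pool.Agent.H638.IB.Body K :=
  ⟨fun h => ⟨h.1, h.2, h.3, h.4⟩, fun h => ⟨h.1, h.2, h.3, h.4⟩⟩

/-- Let `n ≥ 3`. For every origin-symmetric convex body `K` in `ℝⁿ` the iterated intersection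
bodies `Iᵐ K` are origin-symmetric convex bodies whose Banach-Mazur distance to the Euclidean unit
ball tends to `1`. The convergence is uniform in `K`: for every `ε > 0` there is an `M` such that
this distance lies in `[1, 1 + ε]` for all `m ≥ M` and all origin-symmetric convex bodies `K`. -/
theorem result {n : ℕ} (hn : 3 ≤ n) :
    (∀ K : Set (E n), IsSymConvexBody K →
      (∀ m : ℕ, IsSymConvexBody (interBody^[m] K)) ∧
      Tendsto (fun m => banachMazur (interBody^[m] K) (unitBall n)) atTop (𝓝 1)) ∧
    ∀ ε : ℝ, 0 < ε → ∃ M : ℕ, ∀ m, M ≤ m → ∀ K : Set (E n), IsSymConvexBody K →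
      1 ≤ banachMazur (interBody^[m] K) (unitBall n) ∧
      banachMazur (interBody^[m] K) (unitBall n) ≤ 1 + ε := by
  refine ⟨fun K hK => ⟨fun m => ?_, ?_⟩, fun ε hε => ?_⟩
  · rw [body_iff]
    exact Pool.Agent.H638.IB.iter_body Pool.Agent.H638.IB.IBB_final hn K ((body_iff K).1 hK) m
  · exact Pool.Agent.H638.IB.main_tendsto Pool.Agent.H638.IB.UNI_final hn K ((body_iff K).1 hK)
  · obtain ⟨M, hM⟩ := Pool.Agent.H638.IB.main_uniform Pool.Agent.H638.IB.UNI_final hn ε hε
    exact ⟨M, fun m hm K hK => hM m hm K ((body_iff K).1 hK)⟩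

end Pool.Agent.Results.MP_5ac201_gt.IteratesConverge
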